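import Pool.Agent.W476.TP.Stm
import Pool.Agent.W476.TP.Base

/-! # Exchange of a linear form by a form (TP-KEY) -/

set_option autoImplicit false

namespace Pool.Agent.W338.TP

open MvPolynomial Pool.Agent.W476.TP

attribute [local instance] MvPolynomial.weightedGradedAlgebra

/-- linear forms avoiding zero at finitely many vectors -/
theorem avoid {L : Type} [Field L] [Infinite L] {n : ℕ} {A : Type} [Fintype A]
    (u : A → Fin n → L) (hu : ∀ a, u a ≠ 0) :
    ∃ l : Fin n → L, ∀ a, ∑ i, l i * u a i ≠ 0 := by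
  classical
  obtain ⟨P, hPd⟩ : ∃ P : A → Polynomial L,
    P = fun a => ∑ i : Fin n, Polynomial.C (u a i) * Polynomial.X ^ (i : ℕ) := ⟨_, rfl⟩
  have hP : ∀ a, P a ≠ 0 := by
    intro a h
    apply hu a
    funext i
    have h1 := congrArg (fun q => Polynomial.coeff q (i : ℕ)) h
    rw [hPd] at h1
    simp only [Polynomial.finsetSum_coeff, Polynomial.coeff_C_mul_X_pow,
      Polynomial.coeff_zero] at h1
    rw [Finset.sum_eq_single i] at h1
    · simpa using h1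
    · intro j _ hj
      rw [if_neg]
      intro h2
      exact hj (Fin.ext h2.symm)
    · intro h2
      exact absurd (Finset.mem_univ i) h2
  have hprod : ∏ a, P a ≠ 0 := Finset.prod_ne_zero_iff.2 fun a _ => hP a
  obtain ⟨x, hx⟩ : ∃ x : L, (∏ a, P a).eval x ≠ 0 := by
    by_contra h
    push Not at h
    exact hprod (Polynomial.funext fun x => by rw [h x, Polynomial.eval_zero])
  rw [Polynomial.eval_prod, Finset.prod_ne_zero_iff] at hx
  refine ⟨fun i => x ^ (i : ℕ), fun a h => hx a (Finset.mem_univ a) ?_⟩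
  rw [hPd]
  simp only [Polynomial.eval_finsetSum, Polynomial.eval_mul, Polynomial.eval_C,
    Polynomial.eval_pow, Polynomial.eval_X]
  rw [← h]
  exact Finset.sum_congr rfl fun i _ => mul_comm _ _

section comp

variable {σ K : Type} [Field K] {r : ℕ} (w : σ → Fin r → ℕ)

theorem comp_mul {F : MvPolynomial σ K} {δ : Fin r → ℕ} (hF : IsWeightedHomogeneous w F δ)
    (B : MvPolynomial σ K) (e : Fin r → ℕ) :
    weightedHomogeneousComponent w (δ + e) (F * B) = F * weightedHomogeneousComponent w e B := by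
  classical
  have h1 := DirectSum.coe_decompose_mul_add_of_left_mem (weightedHomogeneousSubmodule K w)
    (i := δ) (j := e) (a := F) (b := B) hF
  rw [← weightedDecomposition.decompose'_apply, ← weightedDecomposition.decompose'_apply]
  exact h1

/-- homogeneous ideals -/
theorem span_comp {S : Set (MvPolynomial σ K)}
    (hS : ∀ P ∈ S, ∃ δ, IsWeightedHomogeneous w P δ) {A : MvPolynomial σ K}
    (hA : A ∈ Ideal.span S) (e : Fin r → ℕ) :
    weightedHomogeneousComponent w e A ∈ Ideal.span S := by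
  classical
  refine weightedHomogeneousComponent_mem_of_mem K w ?_ hA e
  exact Ideal.homogeneous_span _ _ fun P hP => hS P hP

/-- finitely many exponents -/
theorem fin_exp [Fintype σ] (hw : ∀ i, w i ≠ 0) (η : Fin r → ℕ) :
    {α : σ →₀ ℕ | Finsupp.weight w α = η}.Finite := by
  classical
  refine (Set.finite_Iic (Finsupp.equivFunOnFinite.symm fun _ : σ => ∑ κ, η κ)).subset ?_
  intro α hα
  rw [Set.mem_Iic]
  intro i
  show α i ≤ ∑ κ, η κ
  have h1 : Finsupp.weight w α = η := hα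
  obtain ⟨κ, hκ⟩ := Function.ne_iff.1 (hw i)
  have h2 : 0 < w i κ := Nat.pos_of_ne_zero hκ
  rw [Finsupp.weight_apply, Finsupp.sum_fintype _ _ (fun i => by exact zero_smul ℕ _)] at h1
  have h3 := congrFun h1 κ
  rw [Finset.sum_apply] at h3
  have h4 : α i • w i κ ≤ ∑ j, (α j • w j) κ :=
    Finset.single_le_sum (f := fun j => (α j • w j) κ) (fun _ _ => Nat.zero_le _)
      (Finset.mem_univ i)
  have h5 : η κ ≤ ∑ κ, η κ := Finset.single_le_sum (fun _ _ => Nat.zero_le _) (Finset.mem_univ κ)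
  rw [h3, smul_eq_mul] at h4
  nlinarith

/-- a bound for the number of independent forms -/
theorem exists_rel [Fintype σ] (hw : ∀ i, w i ≠ 0) (η : Fin r → ℕ) :
    ∃ c : ℕ, ∀ Q : Fin (c + 1) → MvPolynomial σ K, (∀ s, IsWeightedHomogeneous w (Q s) η) →
      ∃ a : Fin (c + 1) → K, a ≠ 0 ∧ ∑ s, a s • Q s = 0 := by
  classical
  set E : Finset (σ →₀ ℕ) := (fin_exp w hw η).toFinset with hE
  refine ⟨E.card, fun Q hQ => ?_⟩
  have h1 : ¬ LinearIndependent K (fun s : Fin (E.card + 1) => fun α : E => coeff α.1 (Q s)) := by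
    intro h
    have h2 := h.fintype_card_le_finrank
    rw [Fintype.card_fin, Module.finrank_fintype_fun_eq_card, Fintype.card_coe] at h2
    omega
  rw [Fintype.not_linearIndependent_iff] at h1
  obtain ⟨a, ha, i, hi⟩ := h1
  refine ⟨a, fun h => hi (by rw [h]; rfl), ?_⟩
  ext α
  rw [coeff_sum, coeff_zero]
  simp only [coeff_smul, smul_eq_mul]
  by_cases hα : α ∈ E
  · have h2 := congrFun ha ⟨α, hα⟩
    rw [Finset.sum_apply] at h2
    exact h2
  · refine Finset.sum_eq_zero fun s _ => ?_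
    rw [(hQ s).coeff_eq_zero α, mul_zero]
    intro h
    exact hα ((fin_exp w hw η).mem_toFinset.2 h)

end comp

section lf

variable {L : Type} [Field L] {r : ℕ} (m : Fin r → ℕ) (n : ℕ)

/-- linear forms -/
noncomputable def lf (κ : Fin r) (l : Fin (m κ + 1) → L) :
    MvPolynomial (Sig m ⊕ Fin (n + 1)) L :=
  ∑ i, C (l i) * X (Sum.inl ⟨κ, i⟩)

theorem lf_hom (D : Fin r → ℕ) (κ : Fin r) (l : Fin (m κ + 1) → L) :
    IsWeightedHomogeneous (wt2 m D n) (lf m n κ l) (Pi.single κ 1) := by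
  refine IsWeightedHomogeneous.sum _ _ _ fun i _ => ?_
  exact (isWeightedHomogeneous_X L (wt2 m D n) (Sum.inl ⟨κ, i⟩)).C_mul (l i)

theorem eval_lf (κ : Fin r) (l : Fin (m κ + 1) → L) (y : Sig m → L) (z : Fin (n + 1) → L) :
    eval (Sum.elim y z) (lf m n κ l) = ∑ i, l i * y ⟨κ, i⟩ := by
  simp [lf]

end lf

theorem t_KEY : S_NST → S_KEY := by
  intro hN L _ _ r n m D hD G t hG J _ F δ hF κ hl F₀ δ₀ hF₀ hδ₀
  classical
  by_contra hcon
  push Not at hcon
  have hinf : Infinite L := IsAlgClosed.instInfinite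
  -- the points
  obtain ⟨V, hV⟩ : ∃ V : Set ((Sig m → L) × (Fin (n + 1) → L)),
    V = {w | Rel w.1 ∧ (∀ i, ev (G i) w.1 (w.2 i) = 0) ∧
      ∀ j, eval (Sum.elim w.1 w.2) (F j) = 0} := ⟨_, rfl⟩
  have hVm : ∀ w, w ∈ V ↔ Rel w.1 ∧ (∀ i, ev (G i) w.1 (w.2 i) = 0) ∧
      ∀ j, eval (Sum.elim w.1 w.2) (F j) = 0 := fun w => by rw [hV]; exact Iff.rfl
  have hF₀V : ∀ w ∈ V, eval (Sum.elim w.1 w.2) F₀ ≠ 0 := by
    intro w hw
    obtain ⟨h1, h2, h3⟩ := (hVm w).1 hw
    exact hcon w.1 w.2 h1 h2 h3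
  have hw : ∀ i, wt2 m D n i ≠ 0 := by
    rintro (i | i)
    · intro h
      have h1 := congrFun h i.1
      simp [wt2, wt] at h1
    · exact hD
  obtain ⟨S, hS⟩ : ∃ S : Set (MvPolynomial (Sig m ⊕ Fin (n + 1)) L),
    S = Set.range (fun i => gz (G i) i) ∪ Set.range F := ⟨_, rfl⟩
  have hSg : ∀ i, gz (G i) i ∈ S := fun i => by rw [hS]; exact Or.inl ⟨i, rfl⟩
  have hSF : ∀ j, F j ∈ S := fun j => by rw [hS]; exact Or.inr ⟨j, rfl⟩
  have hSh : ∀ P ∈ S, ∃ δ, IsWeightedHomogeneous (wt2 m D n) P δ := by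
    intro P hP
    rw [hS] at hP
    rcases hP with ⟨i, rfl⟩ | ⟨j, rfl⟩
    · exact ⟨_, gz_hom (hG i) i⟩
    · exact ⟨_, hF j⟩
  have hSV : ∀ P ∈ Ideal.span S, ∀ w ∈ V, eval (Sum.elim w.1 w.2) P = 0 := by
    intro P hP w hwV
    obtain ⟨h1, h2, h3⟩ := (hVm w).1 hwV
    have h4 : Ideal.span S ≤ RingHom.ker (eval (Sum.elim w.1 w.2)) := by
      refine Ideal.span_le.2 fun Q hQ => ?_
      rw [hS] at hQ
      rcases hQ with ⟨i, rfl⟩ | ⟨j, rfl⟩
      · show eval (Sum.elim w.1 w.2) (gz (G i) i) = 0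
        rw [eval_gz]
        exact h2 i
      · exact h3 j
    exact h4 hP
  obtain ⟨N, hNN⟩ := hN L m D hD G t hG (Ideal.span S ⊔ Ideal.span {F₀})
    (fun i => Ideal.mem_sup_left (Ideal.subset_span (hSg i))) (by
      intro y z hy
      by_contra h
      push Not at h
      refine hcon y z hy (fun i => ?_) (fun j => ?_) ?_
      · rw [← eval_gz]
        exact h _ (Ideal.mem_sup_left (Ideal.subset_span (hSg i)))
      · exact h _ (Ideal.mem_sup_left (Ideal.subset_span (hSF j)))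
      · exact h _ (Ideal.mem_sup_right (Ideal.subset_span rfl)))
  -- iteration
  obtain ⟨η, hη⟩ : ∃ η : Fin r → ℕ, η = fun _ => N := ⟨_, rfl⟩
  have hit : ∀ (k : ℕ) (Q : MvPolynomial (Sig m ⊕ Fin (n + 1)) L),
      IsWeightedHomogeneous (wt2 m D n) Q (η + k • δ₀) →
      ∃ Q', IsWeightedHomogeneous (wt2 m D n) Q' η ∧ ∀ w ∈ V, eval (Sum.elim w.1 w.2) Q =
        eval (Sum.elim w.1 w.2) F₀ ^ k * eval (Sum.elim w.1 w.2) Q' := by
    intro k
    induction k with
    | zero =>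
      intro Q hQ
      rw [zero_smul, add_zero] at hQ
      exact ⟨Q, hQ, fun w _ => by rw [pow_zero, one_mul]⟩
    | succ k ih =>
      intro Q hQ
      have h1 : Q ∈ Ideal.span S ⊔ Ideal.span {F₀} := hNN _ (fun κ => by
        rw [hη]
        exact Nat.le_add_right _ _) Q hQ
      obtain ⟨A, hA, B', hB', hAB⟩ := Submodule.mem_sup.1 h1
      obtain ⟨B, rfl⟩ := Ideal.mem_span_singleton'.1 hB'
      have h2 : η + (k + 1) • δ₀ = δ₀ + (η + k • δ₀) := by
        rw [add_smul, one_smul]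
        abel
      rw [h2] at hQ
      have h3 := congrArg (weightedHomogeneousComponent (wt2 m D n) (δ₀ + (η + k • δ₀))) hAB
      rw [map_add, mul_comm B F₀, comp_mul _ hF₀, hQ.weightedHomogeneousComponent_same] at h3
      obtain ⟨Q', hQ', hQV⟩ := ih _
        (weightedHomogeneousComponent_isWeightedHomogeneous (η + k • δ₀) B)
      refine ⟨Q', hQ', fun w hwV => ?_⟩
      rw [← h3, map_add, map_mul, hSV _ (span_comp _ hSh hA _) w hwV, hQV w hwV, zero_add,
        pow_succ]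
      ring
  obtain ⟨c, hc⟩ := exists_rel (K := L) (wt2 m D n) hw η
  -- points with different coordinates
  obtain ⟨f, hf1, hf2⟩ := exists_seq_of_forall_finset_exists
    (fun x : ((Sig m → L) × (Fin (n + 1) → L)) × (Fin (m κ + 1) → L) =>
      x.1 ∈ V ∧ ∑ i, x.2 i * x.1.1 ⟨κ, i⟩ = 0)
    (fun x x' => ∑ i, x'.2 i * x.1.1 ⟨κ, i⟩ ≠ 0) (by
      intro s hs
      obtain ⟨l, hl'⟩ := avoid (fun x : s => fun i => x.1.1.1 ⟨κ, i⟩) (fun x h => by
        obtain ⟨i, hi⟩ := ((hVm _).1 (hs x.1 x.2).1).1 κ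
        exact hi (congrFun h i))
      obtain ⟨y, z, h1, h2, h3, h4⟩ := hl l
      exact ⟨((y, z), l), ⟨(hVm _).2 ⟨h1, h2, h3⟩, h4⟩, fun x hx => hl' ⟨x, hx⟩⟩)
  have hex : ∀ κ' : Fin r, ∃ l : Fin (m κ' + 1) → L, ∀ i : Fin (c + 1),
      ∑ j, l j * (f i).1.1 ⟨κ', j⟩ ≠ 0 := by
    intro κ'
    refine avoid (fun i : Fin (c + 1) => fun j => (f i).1.1 ⟨κ', j⟩) fun i h => ?_
    obtain ⟨j, hj⟩ := ((hVm _).1 (hf1 i).1).1 κ'
    exact hj (congrFun h j)
  choose lam hlam using hex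
  obtain ⟨la, hla⟩ : ∃ la : Fin (c + 1) → L, la = fun i : Fin (c + 1) => ∑ j, lam κ j * (f i).1.1 ⟨κ, j⟩ :=
    ⟨_, rfl⟩
  have hla0 : ∀ i, la i ≠ 0 := fun i => by rw [hla]; exact hlam κ i
  obtain ⟨l1, hl1⟩ := avoid
    (fun p : {p : Fin (c + 1) × Fin (c + 1) // p.1 < p.2} => fun j : Fin (m κ + 1) =>
      la p.1.2 * (f p.1.1).1.1 ⟨κ, j⟩ - la p.1.1 * (f p.1.2).1.1 ⟨κ, j⟩) (by
      rintro ⟨⟨i, i'⟩, hi⟩ h
      have h1 : ∑ j, (f i').2 j * (la i' * (f i).1.1 ⟨κ, j⟩ - la i * (f i').1.1 ⟨κ, j⟩) =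
          la i' * ∑ j, (f i').2 j * (f i).1.1 ⟨κ, j⟩ -
            la i * ∑ j, (f i').2 j * (f i').1.1 ⟨κ, j⟩ := by
        rw [Finset.mul_sum, Finset.mul_sum, ← Finset.sum_sub_distrib]
        exact Finset.sum_congr rfl fun j _ => by ring
      rw [(hf1 i').2, mul_zero, sub_zero] at h1
      have h2 : ∑ j, (f i').2 j * (la i' * (f i).1.1 ⟨κ, j⟩ - la i * (f i').1.1 ⟨κ, j⟩) = 0 :=
        Finset.sum_eq_zero fun j _ => by
          have h3 : la i' * (f i).1.1 ⟨κ, j⟩ - la i * (f i').1.1 ⟨κ, j⟩ = 0 := congrFun h j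
          rw [h3, mul_zero]
      rw [h2] at h1
      exact mul_ne_zero (hla0 i') (hf2 i i' hi) h1.symm)
  obtain ⟨mu, hmu⟩ : ∃ mu : Fin (c + 1) → L, mu = fun i : Fin (c + 1) => ∑ j, l1 j * (f i).1.1 ⟨κ, j⟩ :=
    ⟨_, rfl⟩
  have hne : ∀ i i' : Fin (c + 1), i < i' → la i' * mu i ≠ la i * mu i' := by
    intro i i' hi h
    apply hl1 ⟨(i, i'), hi⟩
    have h1 : ∑ j, l1 j * (la i' * (f i).1.1 ⟨κ, j⟩ - la i * (f i').1.1 ⟨κ, j⟩) =
        la i' * mu i - la i * mu i' := by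
      rw [hmu]
      simp only []
      rw [Finset.mul_sum, Finset.mul_sum, ← Finset.sum_sub_distrib]
      exact Finset.sum_congr rfl fun j _ => by ring
    exact h1.trans (sub_eq_zero.2 h)
  have hinj : Function.Injective fun i => mu i / la i := by
    intro i i' h
    have h1 : la i' * mu i = la i * mu i' := by
      have h2 : mu i / la i = mu i' / la i' := h
      rw [div_eq_div_iff (hla0 i) (hla0 i')] at h2
      rw [mul_comm (la i'), h2, mul_comm]
    rcases lt_trichotomy i i' with h2 | h2 | h2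
    · exact absurd h1 (hne i i' h2)
    · exact h2
    · exact absurd h1.symm (hne i' i h2)
  -- the forms
  obtain ⟨M', hM'⟩ : ∃ M' : Fin r → ℕ, M' = fun κ' => N + c * δ₀ κ' - (if κ' = κ then c else 0) :=
    ⟨_, rfl⟩
  obtain ⟨E, hE⟩ : ∃ E : Fin (c + 1) → MvPolynomial (Sig m ⊕ Fin (n + 1)) L,
    E = fun s : Fin (c + 1) => lf m n κ l1 ^ (s : ℕ) * lf m n κ (lam κ) ^ (c - s) *
      ∏ κ', lf m n κ' (lam κ') ^ M' κ' := ⟨_, rfl⟩
  have hEh : ∀ s, IsWeightedHomogeneous (wt2 m D n) (E s) (η + c • δ₀) := by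
    intro s
    have h1 := (((lf_hom m n D κ l1).pow s).mul ((lf_hom m n D κ (lam κ)).pow (c - s))).mul
      (IsWeightedHomogeneous.prod Finset.univ (fun κ' => lf m n κ' (lam κ') ^ M' κ')
        (fun κ' => M' κ' • Pi.single κ' 1) fun κ' _ => (lf_hom m n D κ' (lam κ')).pow (M' κ'))
    rw [hE]
    refine (congrArg (IsWeightedHomogeneous (wt2 m D n) _) ?_).mp h1
    have hs : (s : ℕ) ≤ c := Nat.lt_succ_iff.1 s.2
    have h5 : c ≤ c * δ₀ κ := Nat.le_mul_of_pos_right c hδ₀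
    funext κ''
    have h2 : (∑ κ', M' κ' • (Pi.single κ' 1 : Fin r → ℕ)) κ'' = M' κ'' := by
      rw [Finset.sum_apply, Finset.sum_eq_single κ'']
      · simp
      · intro b _ hb
        simp [Pi.single_eq_of_ne hb.symm]
      · intro h
        exact absurd (Finset.mem_univ _) h
    rw [Pi.add_apply, Pi.add_apply, h2, hM', hη]
    simp only [Pi.smul_apply, Pi.add_apply, smul_eq_mul]
    by_cases hκ : κ'' = κ
    · subst hκ
      rw [Pi.single_eq_same, if_pos rfl]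
      omega
    · rw [Pi.single_eq_of_ne hκ, if_neg hκ]
      omega
  choose Q' hQ' hQV using fun s => hit c (E s) (hEh s)
  obtain ⟨a, ha0, ha⟩ := hc Q' hQ'
  apply ha0
  refine Matrix.eq_zero_of_forall_index_sum_mul_pow_eq_zero hinj fun i => ?_
  have hwi := (hf1 i).1
  have h1 : ∑ s, a s * eval (Sum.elim (f i).1.1 (f i).1.2) (E s) = 0 := by
    have h2 := congrArg (eval (Sum.elim (f i).1.1 (f i).1.2)) ha
    rw [map_sum, map_zero] at h2
    have h3 : ∀ s, a s * eval (Sum.elim (f i).1.1 (f i).1.2) (E s) =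
        eval (Sum.elim (f i).1.1 (f i).1.2) F₀ ^ c *
          eval (Sum.elim (f i).1.1 (f i).1.2) (a s • Q' s) := by
      intro s
      rw [hQV s _ hwi, smul_eval]
      ring
    simp_rw [h3]
    rw [← Finset.mul_sum, h2, mul_zero]
  have hP : ∏ κ', (∑ j, lam κ' j * (f i).1.1 ⟨κ', j⟩) ^ M' κ' ≠ 0 :=
    Finset.prod_ne_zero_iff.2 fun κ' _ => pow_ne_zero _ (hlam κ' i)
  have h2 : ∀ s : Fin (c + 1), eval (Sum.elim (f i).1.1 (f i).1.2) (E s) =
      (la i ^ c * ∏ κ', (∑ j, lam κ' j * (f i).1.1 ⟨κ', j⟩) ^ M' κ') *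
        (mu i / la i) ^ (s : ℕ) := by
    intro s
    have hs : (s : ℕ) ≤ c := Nat.lt_succ_iff.1 s.2
    rw [hE]
    simp only [map_mul, map_pow, map_prod, eval_lf]
    have e1 : ∑ j, l1 j * (f i).1.1 ⟨κ, j⟩ = mu i / la i * la i := by
      rw [div_mul_cancel₀ _ (hla0 i), hmu]
    have e2 : ∑ j, lam κ j * (f i).1.1 ⟨κ, j⟩ = la i := by rw [hla]
    have e3 : la i ^ c = la i ^ (s : ℕ) * la i ^ (c - s) := by
      rw [← pow_add]
      congr 1
      omega
    rw [e1, e2, e3, mul_pow]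
    ring
  have h3 : (la i ^ c * ∏ κ', (∑ j, lam κ' j * (f i).1.1 ⟨κ', j⟩) ^ M' κ') *
      ∑ s, a s * (mu i / la i) ^ (s : ℕ) = 0 := by
    rw [← h1, Finset.mul_sum]
    refine Finset.sum_congr rfl fun s _ => ?_
    rw [h2]
    ring
  exact (mul_eq_zero.1 h3).resolve_left (mul_ne_zero (pow_ne_zero _ (hla0 i)) hP)

end Pool.Agent.W338.TP
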